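import Pool.Agent.helper45.SGC.Spec

set_option autoImplicit false

namespace Pool.Agent.SGC

open Finset Pool.Agent.helper38.Neg Pool.Agent.helper55.NT

/-- the truth value of an element of `ZMod 2` -/
def TSE_bb (z : ZMod 2) : Bool := decide (z = 1)

theorem TSE_z2 (a b : ZMod 2) (h : a ≠ b) : a = b + 1 := by
  revert a b
  decide

theorem TSE_ne (a : ZMod 2) : a ≠ a + 1 := by
  revert a
  decide

theorem TSE_add (a : ZMod 2) : a + 1 + 1 = a := by
  revert a
  decide

theorem TSE_bt (a : ZMod 2) (h : TSE_bb a = true) : a = 1 := by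
  revert a
  unfold TSE_bb
  decide

theorem TSE_ite (b : Bool) : TSE_bb (if b = true then 1 else 0) = b := by
  cases b <;> decide

/-- the input wire of the bit `i` of `x` -/
def TSE_in {n : ℕ} (w s : ℕ) (i : Fin n) : Fin (n + w + s) := Fin.castAdd s (Fin.castAdd w i)

theorem TSE_in_inj {n w s : ℕ} {i i' : Fin n} (h : TSE_in w s i = TSE_in w s i') : i = i' := by
  unfold TSE_in at h
  exact Fin.castAdd_injective _ _ (Fin.castAdd_injective _ _ h)

theorem TSE_in_ne {n w s : ℕ} {i : Fin n} {j : Fin s} : Fin.natAdd (n + w) j ≠ TSE_in w s i := by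
  intro h
  have h1 := congrArg Fin.val h
  unfold TSE_in at h1
  simp only [Fin.val_natAdd, Fin.val_castAdd] at h1
  have := i.2
  omega

open Classical in
/-- the clauses which are present -/
noncomputable def TSE_phi {n w s : ℕ} (a b : Fin s → Fin (n + w + s)) (F : Fin s → Bool → Bool → Bool)
    (o : Fin (n + w + s)) (c : Cl (n + w + s)) : Fn n :=
  if c.1 = (fun _ => o) ∧ c.2 = (fun _ => 1) then fun _ => true
  else if h : ∃ i : Fin n, c.1 = (fun _ => TSE_in w s i) ∧ c.2 = (fun _ => 1) then fun x => x h.choose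
  else if h : ∃ i : Fin n, c.1 = (fun _ => TSE_in w s i) ∧ c.2 = (fun _ => 0) then fun x => !(x h.choose)
  else if ∃ j : Fin s, c.1 = ![Fin.natAdd (n + w) j, a j, b j] ∧
      TSE_bb (c.2 0 + 1) ≠ F j (TSE_bb (c.2 1 + 1)) (TSE_bb (c.2 2 + 1)) then fun _ => true
  else fun _ => false

theorem TSE_o {n w s : ℕ} (a b : Fin s → Fin (n + w + s)) (F : Fin s → Bool → Bool → Bool)
    (o : Fin (n + w + s)) (x : Fin n → Bool) :
    TSE_phi a b F o (fun _ => o, fun _ => 1) x = true := by
  unfold TSE_phi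
  rw [if_pos ⟨rfl, rfl⟩]

theorem TSE_i1 {n w s : ℕ} (a b : Fin s → Fin (n + w + s)) (F : Fin s → Bool → Bool → Bool)
    (o : Fin (n + w + s)) (x : Fin n → Bool) (i : Fin n) (hx : x i = true) :
    TSE_phi a b F o (fun _ => TSE_in w s i, fun _ => 1) x = true := by
  unfold TSE_phi
  split_ifs with h1 h2 h3 h4
  · rfl
  · have h := h2.choose_spec.1
    have h' : TSE_in w s i = TSE_in w s h2.choose := congrFun h 0
    rw [← TSE_in_inj h']
    exact hx
  · exact absurd ⟨i, rfl, rfl⟩ h2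
  · rfl
  · exact absurd ⟨i, rfl, rfl⟩ h2

theorem TSE_i0 {n w s : ℕ} (a b : Fin s → Fin (n + w + s)) (F : Fin s → Bool → Bool → Bool)
    (o : Fin (n + w + s)) (x : Fin n → Bool) (i : Fin n) (hx : x i = false) :
    TSE_phi a b F o (fun _ => TSE_in w s i, fun _ => 0) x = true := by
  have h01 : (fun _ : Fin 3 => (0 : ZMod 2)) ≠ fun _ => 1 := by
    intro h
    exact absurd (congrFun h 0) (by decide)
  unfold TSE_phi
  split_ifs with h1 h2 h3 h4
  · rfl
  · exact absurd h2.choose_spec.2 h01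
  · have h := h3.choose_spec.1
    have h' : TSE_in w s i = TSE_in w s h3.choose := congrFun h 0
    change (!(x h3.choose)) = true
    rw [← TSE_in_inj h', hx]
    rfl
  · rfl
  · exact absurd ⟨i, rfl, rfl⟩ h3

theorem TSE_g {n w s : ℕ} (a b : Fin s → Fin (n + w + s)) (F : Fin s → Bool → Bool → Bool)
    (o : Fin (n + w + s)) (x : Fin n → Bool) (j : Fin s) (e : Fin 3 → ZMod 2)
    (he : TSE_bb (e 0 + 1) ≠ F j (TSE_bb (e 1 + 1)) (TSE_bb (e 2 + 1))) :
    TSE_phi a b F o (![Fin.natAdd (n + w) j, a j, b j], e) x = true := by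
  unfold TSE_phi
  split_ifs with h1 h2 h3 h4
  · rfl
  · exact absurd (congrFun h2.choose_spec.1 0) TSE_in_ne
  · exact absurd (congrFun h3.choose_spec.1 0) TSE_in_ne
  · rfl
  · exact absurd ⟨j, rfl, he⟩ h4

theorem TSE_form {n w s : ℕ} (a b : Fin s → Fin (n + w + s)) (F : Fin s → Bool → Bool → Bool)
    (o : Fin (n + w + s)) (c : Cl (n + w + s)) :
    (∃ d, TSE_phi a b F o c = fun _ => d) ∨ (∃ i, TSE_phi a b F o c = fun x => x i) ∨
      ∃ i, TSE_phi a b F o c = fun x => !(x i) := by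
  unfold TSE_phi
  split_ifs with h1 h2 h3 h4
  · exact Or.inl ⟨true, rfl⟩
  · exact Or.inr (Or.inl ⟨h2.choose, rfl⟩)
  · exact Or.inr (Or.inr ⟨h3.choose, rfl⟩)
  · exact Or.inl ⟨true, rfl⟩
  · exact Or.inl ⟨false, rfl⟩

theorem TSE_inv {n w s : ℕ} (a b : Fin s → Fin (n + w + s)) (F : Fin s → Bool → Bool → Bool)
    (o : Fin (n + w + s)) (c : Cl (n + w + s)) (x : Fin n → Bool) (h : TSE_phi a b F o c x = true) :
    (c.1 = (fun _ => o) ∧ c.2 = (fun _ => 1)) ∨
    (∃ i : Fin n, c.1 = (fun _ => TSE_in w s i) ∧ c.2 = (fun _ => 1) ∧ x i = true) ∨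
    (∃ i : Fin n, c.1 = (fun _ => TSE_in w s i) ∧ c.2 = (fun _ => 0) ∧ x i = false) ∨
    ∃ j : Fin s, c.1 = ![Fin.natAdd (n + w) j, a j, b j] ∧
      TSE_bb (c.2 0 + 1) ≠ F j (TSE_bb (c.2 1 + 1)) (TSE_bb (c.2 2 + 1)) := by
  unfold TSE_phi at h
  split_ifs at h with h1 h2 h3 h4
  · exact Or.inl h1
  · exact Or.inr (Or.inl ⟨h2.choose, h2.choose_spec.1, h2.choose_spec.2, h⟩)
  · refine Or.inr (Or.inr (Or.inl ⟨h3.choose, h3.choose_spec.1, h3.choose_spec.2, ?_⟩))
    simpa using h
  · exact Or.inr (Or.inr (Or.inr h4))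

theorem TSE (hDSC : DSC_stmt) : TSE_stmt := by
  intro n w s C o
  obtain ⟨a, b, F, hab, -, hv⟩ := hDSC (n + w) s C
  refine ⟨TSE_phi a b F o, TSE_form a b F o, fun x => ⟨?_, ?_⟩⟩
  · rintro ⟨y, hy⟩
    obtain ⟨hin, hgt⟩ := hv (Fin.append x y)
    refine ⟨fun k => if C.val (Fin.append x y) k = true then 1 else 0, fun c hc => ?_⟩
    have hbb : ∀ k, TSE_bb (if C.val (Fin.append x y) k = true then 1 else 0) = C.val (Fin.append x y) k :=
      fun k => TSE_ite _
    have hx : ∀ i : Fin n, C.val (Fin.append x y) (TSE_in w s i) = x i := by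
      intro i
      unfold TSE_in
      rw [hin, Fin.append_left]
    rcases TSE_inv a b F o c x hc with ⟨h1, h2⟩ | ⟨i, h1, h2, h3⟩ | ⟨i, h1, h2, h3⟩ | ⟨j, h1, h2⟩
    · refine ⟨0, ?_⟩
      rw [h1, h2]
      simp [hy]
    · refine ⟨0, ?_⟩
      rw [h1, h2]
      simp [hx, h3]
    · refine ⟨0, ?_⟩
      rw [h1, h2]
      simp [hx, h3]
    · by_contra hk
      push Not at hk
      have hk' : ∀ k, c.2 k + 1 = if C.val (Fin.append x y) (c.1 k) = true then 1 else 0 := fun k =>
        (TSE_z2 _ _ (hk k)).symm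
      apply h2
      rw [hk' 0, hk' 1, hk' 2, hbb, hbb, hbb, h1]
      exact hgt j
  · rintro ⟨α, hα⟩
    have ho : α o = 1 := by
      obtain ⟨k, hk⟩ := hα (fun _ => o, fun _ => 1) (TSE_o a b F o x)
      exact hk
    have hi : ∀ i : Fin n, TSE_bb (α (TSE_in w s i)) = x i := by
      intro i
      cases hx : x i with
      | true =>
        obtain ⟨k, hk⟩ := hα (fun _ => TSE_in w s i, fun _ => 1) (TSE_i1 a b F o x i hx)
        have hk' : α (TSE_in w s i) = 1 := hk
        rw [hk']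
        rfl
      | false =>
        obtain ⟨k, hk⟩ := hα (fun _ => TSE_in w s i, fun _ => 0) (TSE_i0 a b F o x i hx)
        have hk' : α (TSE_in w s i) = 0 := hk
        rw [hk']
        rfl
    have hg : ∀ j : Fin s, TSE_bb (α (Fin.natAdd (n + w) j)) = F j (TSE_bb (α (a j))) (TSE_bb (α (b j))) := by
      intro j
      by_contra hne
      obtain ⟨k, hk⟩ := hα (![Fin.natAdd (n + w) j, a j, b j],
        fun k => α ((![Fin.natAdd (n + w) j, a j, b j] : Fin 3 → Fin (n + w + s)) k) + 1)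
        (TSE_g a b F o x j _ (by
          simp only [TSE_add]
          exact hne))
      exact TSE_ne _ hk
    set y : Fin w → Bool := fun i => TSE_bb (α (Fin.castAdd s (Fin.natAdd n i))) with hy
    obtain ⟨hin, hgt⟩ := hv (Fin.append x y)
    have hall : ∀ (m : ℕ) (k : Fin (n + w + s)), (k : ℕ) < m → TSE_bb (α k) = C.val (Fin.append x y) k := by
      intro m
      induction m with
      | zero => intro k hk; omega
      | succ m ih =>
        intro k _
        refine Fin.addCases (motive := fun k => (k : ℕ) < m + 1 → TSE_bb (α k) = C.val (Fin.append x y) k)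
          (fun i _ => ?_) (fun j hj => ?_) k (by assumption)
        · rw [hin]
          refine Fin.addCases (motive := fun i => TSE_bb (α (Fin.castAdd s i)) = Fin.append x y i) (fun i => ?_) (fun i => ?_) i
          · rw [Fin.append_left]
            exact hi i
          · rw [Fin.append_right]
        · rw [hgt, hg]
          rcases hab j with ⟨h1, h2⟩ | ⟨d, hd⟩
          · simp only [Fin.val_natAdd] at hj
            rw [ih (a j) (by omega), ih (b j) (by omega)]
          · rw [hd]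
    refine ⟨y, ?_⟩
    rw [← hall (n + w + s) o o.2, ho]
    rfl

end Pool.Agent.SGC
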